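import Pool.Agent.N843.DM.Stm
import Pool.Agent.N973.ND.Asy
import Pool.Agent.N713.ND.NS

/-!
# DM: the final asymptotics in the residue classes (after `N973/ND/Asy.lean`)
-/

set_option autoImplicit false

open scoped Classical
open Finset Filter

namespace Pool.Agent.N226.DM.Asy

open Pool.Agent.N973.ND
open Pool.Agent.N843.DM
open Pool.Agent.N973.ND.Asy (SS_sub sml_many sml_cut sml_coll cmp)
open Pool.Agent.Y703.CQ (nr sg S_SYM S_C2 c2 S_MER S_CHE)
open Pool.Agent.Y703.CX (sm la jj XX eL zz kk S_SIE eL_tendsto logX_eq rpow_eL HH NN ev_eL one_le_exp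
  HH_ge HH_le HH_pos kk_ge kk_le X_pos one_add_log lin_le zz_ge zz_pos)
open Pool.Agent.R426.QK.Asy (Sml sml_of sml_add sml_eps kap kap_nonneg kap_pow kap_le log_three)

/-- the main error term -/
theorem sml_main {m : ℕ} (hm : 0 < m) {C : ℝ} (hC : 1 ≤ C) :
    Sml 0 fun X => (m : ℝ) ^ (2 * kk X + 2) * ((9 * (NN X : ℝ) + 9) ^ kk X *
    (3 ^ (9 * kk X ^ 2 + 9) * kap C X) * (X * (1 + Real.log X))) := by
  apply sml_of (C := 4 * C) (a := 1) (by norm_num)
  filter_upwards [ev_eL 40000, ev_eL (Real.log m)] with X hX hXm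
  set l := eL X with hl
  have h0 : 0 < eL X := by linarith
  have h1 : 1 ≤ eL X := by linarith
  have hX0 : (0 : ℝ) ≤ X := Nat.cast_nonneg _
  have hm0 : (0 : ℝ) < m := by exact_mod_cast hm
  have hm1 : (1 : ℝ) ≤ m := by exact_mod_cast hm
  have hN : 9 * (NN X : ℝ) + 9 ≤ Real.exp (5 * l) := by
    have h2 : (NN X : ℝ) ≤ HH X * Real.log X + 1 := by
      unfold NN
      push_cast
      have := Nat.floor_le (a := (HH X : ℝ) * Real.log X)
        (mul_nonneg (Nat.cast_nonneg _) (Real.log_natCast_nonneg X))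
      linarith
    have h3 : (HH X : ℝ) * Real.log X ≤ 2 * Real.exp (4 * l) := by
      rw [logX_eq h0]
      calc (HH X : ℝ) * Real.exp (eL X) ≤ 2 * Real.exp (3 * eL X) * Real.exp (eL X) :=
            mul_le_mul_of_nonneg_right (HH_le h0) (Real.exp_pos _).le
        _ = 2 * Real.exp (4 * l) := by
            rw [mul_assoc, ← Real.exp_add]
            congr 2
            rw [hl]
            ring
    have h4 : 1 ≤ Real.exp (4 * l) := one_le_exp (by linarith)
    have h5 : (36 : ℝ) ≤ Real.exp l := by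
      have := Real.add_one_le_exp l
      linarith
    have h6 : Real.exp (5 * l) = Real.exp (4 * l) * Real.exp l := by
      rw [← Real.exp_add]; congr 1; ring
    rw [h6]
    nlinarith
  have hkk := kk_le h1
  have hkk0 : (0 : ℝ) ≤ kk X := Nat.cast_nonneg _
  have hM : (m : ℝ) ^ (2 * kk X + 2) ≤ Real.exp (24 * l ^ 2) := by
    have e : (m : ℝ) ^ (2 * kk X + 2) = Real.exp ((2 * (kk X : ℝ) + 2) * Real.log m) := by
      rw [mul_comm (2 * (kk X : ℝ) + 2) (Real.log m), Real.exp_mul, Real.exp_log hm0]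
      rw [← Real.rpow_natCast]
      congr 1
      push_cast
      ring
    rw [e]
    apply Real.exp_le_exp.2
    have hlm : 0 ≤ Real.log m := Real.log_nonneg hm1
    calc (2 * (kk X : ℝ) + 2) * Real.log m ≤ (2 * (11 * l) + 2 * l) * l := by
          have : 2 * (kk X : ℝ) + 2 ≤ 2 * (11 * l) + 2 * l := by linarith
          exact mul_le_mul this hXm hlm (by positivity)
      _ = 24 * l ^ 2 := by ring
  have hA : (9 * (NN X : ℝ) + 9) ^ kk X ≤ Real.exp (55 * l ^ 2) := by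
    calc (9 * (NN X : ℝ) + 9) ^ kk X ≤ (Real.exp (5 * l)) ^ kk X := by gcongr
      _ = Real.exp (kk X * (5 * l)) := (Real.exp_nat_mul _ _).symm
      _ ≤ Real.exp (55 * l ^ 2) := by
          apply Real.exp_le_exp.2
          nlinarith
  have hB : (3 : ℝ) ^ (9 * kk X ^ 2 + 9) ≤ Real.exp (1200 * l ^ 2) := by
    have e : (3 : ℝ) ^ (9 * kk X ^ 2 + 9) = Real.exp ((9 * (kk X : ℝ) ^ 2 + 9) * Real.log 3) := by
      rw [mul_comm (9 * (kk X : ℝ) ^ 2 + 9) (Real.log 3), Real.exp_mul, Real.exp_log (by norm_num)]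
      rw [← Real.rpow_natCast]
      congr 1
      push_cast
      ring
    rw [e]
    apply Real.exp_le_exp.2
    have h2 := log_three
    have h3 : (kk X : ℝ) ^ 2 ≤ 121 * l ^ 2 := by nlinarith
    have h4 : 0 ≤ (kk X : ℝ) ^ 2 := sq_nonneg _
    have h5 : (40000 : ℝ) ^ 2 ≤ l ^ 2 := by nlinarith
    calc (9 * (kk X : ℝ) ^ 2 + 9) * Real.log 3 ≤ (9 * (kk X : ℝ) ^ 2 + 9) * 1.1 := by gcongr
      _ ≤ (9 * (121 * l ^ 2) + 9) * 1.1 := by gcongr
      _ ≤ 1200 * l ^ 2 := by linarith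
  have hK := kap_le hC h1
  have hLg := one_add_log h0
  have hmain : (m : ℝ) ^ (2 * kk X + 2) *
      ((9 * (NN X : ℝ) + 9) ^ kk X * (3 ^ (9 * kk X ^ 2 + 9) * kap C X) *
      (X * (1 + Real.log X))) ≤ Real.exp (24 * l ^ 2) *
        (Real.exp (55 * l ^ 2) * (Real.exp (1200 * l ^ 2) *
        (2 * C * Real.exp (-l ^ 3 / 24))) * (X * (2 * Real.exp l))) := by
    have := kap_nonneg hC X
    have : 0 ≤ 1 + Real.log X := by
      have := Real.log_natCast_nonneg X
      linarith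
    gcongr
  refine hmain.trans ?_
  have e : Real.exp (24 * l ^ 2) * (Real.exp (55 * l ^ 2) * (Real.exp (1200 * l ^ 2) *
        (2 * C * Real.exp (-l ^ 3 / 24))) * (X * (2 * Real.exp l))) =
      4 * C * (X * Real.exp (24 * l ^ 2 + 55 * l ^ 2 + 1200 * l ^ 2 + -l ^ 3 / 24 + l)) := by
    rw [Real.exp_add, Real.exp_add, Real.exp_add, Real.exp_add]
    ring
  rw [e]
  have h9 : 24 * l ^ 2 + 55 * l ^ 2 + 1200 * l ^ 2 + -l ^ 3 / 24 + l ≤ -1 * l := by
    have h10 : 40000 * l ^ 2 ≤ l ^ 3 := by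
      have : l ^ 3 = l * l ^ 2 := by ring
      rw [this]
      exact mul_le_mul_of_nonneg_right hX (sq_nonneg l)
    nlinarith
  have h11 := Real.exp_le_exp.2 h9
  have hC0 : (0 : ℝ) ≤ 4 * C := by linarith
  gcongr

theorem SM_sub (m a X : ℕ) : SM m a X ⊆ SA X :=
  (filter_subset _ _).trans (SS_sub X)

/-- the sets outside the regular part -/
theorem out_sub (m a X z H k V : ℕ) :
    ((SM m a X).filter fun S => 2 * (V : ℤ) ≤ kd S) \
      ((RM m a X z H k V).filter fun S => Nd (sm z S) (la z S)) ⊆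
      (((((SA X).filter fun S => k < S.card) ∪
      ((SA X).filter fun S => S.card ≤ k ∧
        X < (∏ p ∈ sm z S, p) * ∏ p ∈ la z S, XX H (jj H p))) ∪
      ((SA X).filter fun S => ¬ Set.InjOn (jj H) (la z S : Set ℕ))) ∪
      ((SA X).filter fun S => ∀ p ∈ la z S, ty p ≠ 0)) ∪
      ((SA X).filter fun S => S.card ≤ k ∧ ¬ Nd (sm z S) (la z S)) := by
  intro S hS
  rw [Finset.mem_sdiff, Finset.mem_filter, Finset.mem_filter] at hS
  obtain ⟨⟨h1'', hkd⟩, h2⟩ := hS
  obtain ⟨h1', hres⟩ := mem_filter.1 h1''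
  have h1 := SS_sub X h1'
  simp only [mem_union, mem_filter]
  by_contra hc
  push Not at hc
  obtain ⟨⟨⟨⟨c1, c2⟩, c3⟩, c4⟩, c5⟩ := hc
  have d1 : S.card ≤ k := c1 h1
  have d2 := c2 h1 d1
  have d3 := c3 h1
  have d4 := c4 h1
  have d5 := c5 h1 d1
  apply h2
  refine ⟨?_, d5⟩
  unfold RM RR
  rw [mem_filter, mem_filter]
  exact ⟨⟨h1', d3, d1, d2, hkd, d4⟩, hres⟩

theorem t_DQ (h3 : S_EQ) (h4 : S_LA) (h5 : S_BOX) (hK : M_KEY) (hC : CntP) (hS : S_SIE)
    (hH : S_HAL) (hB : S_BAD) (hF : S_FEW) (hM : S_MER) (hLo : M_LOW) (hKD : M_KD)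
    (hN : S_NEG) (hc2 : S_C2) : M_DQ := by
  intro m a hma A b C hA hBil
  have hkey := hK h3 h4 h5 m a hma
  have hC1 := hBil.1
  obtain ⟨c, X₀, hc, hlow⟩ := hLo m a hma
  rw [Metric.tendsto_nhds]
  intro ε hε
  obtain ⟨V, hV⟩ := exists_pow_lt_of_lt_one (show (0 : ℝ) < ε / 8 by linarith)
    (show (1 / 4 : ℝ) < 1 by norm_num)
  have s1 := sml_many hC
  have s2 := sml_cut hC
  have s3 := sml_coll hC
  have s4 := sml_eps (hF hS hM)
  have s5 := sml_eps (hB hS hH hM)
  have s6 := sml_main hma.pos hC1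
  have s := sml_add (sml_add (sml_add (sml_add (sml_add s1 s2) s3) s4) s5) s6
  have hδ : (0 : ℝ) < c * ε / 8 := by positivity
  have hδ2 : (0 : ℝ) < c * ε / 16 := by positivity
  obtain ⟨X₁, hkd0⟩ := hKD m a hma 0 (c * ε / 16) hδ2
  obtain ⟨X₂, hkdV⟩ := hKD m a hma V (c * ε / 16) hδ2
  filter_upwards [s (c * ε / 8) hδ, ev_eL 1, eventually_ge_atTop X₀, eventually_ge_atTop X₁,
    eventually_ge_atTop X₂] with X hX hl hX0 hX1 hX2
  rw [neg_zero, zero_mul, Real.exp_zero, mul_one] at hX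
  have hl0 : 0 < eL X := by linarith
  have hlo := hlow X hX0
  obtain ⟨K0, hK0⟩ : ∃ K0 : Finset (Finset ℕ),
      K0 = (SM m a X).filter fun S => 2 * ((0 : ℕ) : ℤ) ≤ kd S :=
    ⟨_, rfl⟩
  have hk0 : |(K0.card : ℝ) - (1 / 2) * ((SM m a X).card : ℝ)| ≤ c * ε / 16 * X := by
    rw [hK0]
    exact hkd0 X hX1
  have hkV := hkdV X hX2
  have hXp := X_pos hl0
  have hXp' : (0 : ℝ) < X := by exact_mod_cast hXp
  have hSpos : (0 : ℝ) < ((SM m a X).card : ℝ) := by
    refine lt_of_lt_of_le ?_ hlo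
    positivity
  have hNN : (HH X : ℝ) * Real.log X < NN X := by
    unfold NN
    push_cast
    exact Nat.lt_floor_add_one _
  have hmain := hkey A b C hA hBil X (zz X) (HH X) (kk X) V (NN X) (kap C X) hXp (HH_pos hl0)
    (zz_pos hl) (kap_nonneg hC1 X) (kap_pow hC1 hl) hNN
  set T := (RM m a X (zz X) (HH X) (kk X) V).filter fun S => Nd (sm (zz X) S) (la (zz X) S) with hT
  have hTG : (RM m a X (zz X) (HH X) (kk X) V).filter
      (fun S => Nd (sm (zz X) S) (la (zz X) S) ∧ Gd A b S) = T.filter (Gd A b) := by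
    rw [hT, filter_filter]
  rw [hTG] at hmain
  set U := (SM m a X).filter (fun S => 2 * (V : ℤ) ≤ kd S) with hU
  have hTS : T ⊆ U := by
    intro S hS'
    have h6 := (mem_filter.1 hS').1
    unfold RM RR at h6
    obtain ⟨h6', h6''⟩ := mem_filter.1 h6
    obtain ⟨h7, h8⟩ := mem_filter.1 h6'
    exact mem_filter.2 ⟨mem_filter.2 ⟨h7, h6''⟩, h8.2.2.2.1⟩
  have hRS : ((RM m a X (zz X) (HH X) (kk X) V).card : ℝ) ≤ ((SM m a X).card : ℝ) := by
    have : RM m a X (zz X) (HH X) (kk X) V ⊆ SM m a X :=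
      filter_subset_filter _ (filter_subset _ _)
    exact_mod_cast card_le_card this
  have hcmp := cmp (Gd A b) T U hTS c2 hc2.2.1.le hc2.2.2.1.le
  have hout : ((U \ T).card : ℝ) ≤
      ((((SA X).filter fun S => kk X < S.card).card : ℝ) +
      (((SA X).filter fun S => S.card ≤ kk X ∧
        X < (∏ p ∈ sm (zz X) S, p) * ∏ p ∈ la (zz X) S, XX (HH X) (jj (HH X) p)).card : ℝ) +
      (((SA X).filter fun S => ¬ Set.InjOn (jj (HH X)) (la (zz X) S : Set ℕ)).card : ℝ) +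
      (((SA X).filter fun S => ∀ p ∈ la (zz X) S, ty p ≠ 0).card : ℝ)) +
      (((SA X).filter fun S => S.card ≤ kk X ∧ ¬ Nd (sm (zz X) S) (la (zz X) S)).card : ℝ) := by
    have g := card_le_card (out_sub m a X (zz X) (HH X) (kk X) V)
    rw [← hT, ← hU] at g
    have g2 := (g.trans (card_union_le _ _)).trans (Nat.add_le_add_right ((card_union_le _ _).trans
      (Nat.add_le_add_right ((card_union_le _ _).trans
      (Nat.add_le_add_right (card_union_le _ _) _)) _)) _)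
    exact_mod_cast g2
  have htot : |((U.filter (Gd A b)).card : ℝ) - c2 * (U.card : ℝ)| ≤
      2 * (1 / 4 : ℝ) ^ V * ((SM m a X).card : ℝ) + c * ε / 8 * X := by
    have g1 : 2 * (1 / 4 : ℝ) ^ V * ((RM m a X (zz X) (HH X) (kk X) V).card : ℝ) ≤
        2 * (1 / 4 : ℝ) ^ V * ((SM m a X).card : ℝ) := mul_le_mul_of_nonneg_left hRS (by positivity)
    linarith
  -- the good sets with `0 ≤ kd < 2 V`
  have hgood : (((SM m a X).filter (Gd A b)).card : ℝ) ≤ ((U.filter (Gd A b)).card : ℝ) +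
      ((K0.card : ℝ) - (U.card : ℝ)) := by
    rw [hK0]
    have g1 : (SM m a X).filter (Gd A b) ⊆ (U.filter (Gd A b)) ∪
        (((SM m a X).filter fun S => 2 * ((0 : ℕ) : ℤ) ≤ kd S) \ U) := by
      intro S hS'
      obtain ⟨h6, h7⟩ := mem_filter.1 hS'
      by_cases h8 : S ∈ U
      · exact mem_union.2 (Or.inl (mem_filter.2 ⟨h8, h7⟩))
      · refine mem_union.2 (Or.inr (mem_sdiff.2 ⟨mem_filter.2 ⟨h6, ?_⟩, h8⟩))
        have h9 := hN A b S (by
          have h10 := SM_sub m a X h6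
          unfold SA at h10
          exact (mem_filter.1 h10).2.1) h7
        simpa using h9
    have g2 : U ⊆ (SM m a X).filter fun S => 2 * ((0 : ℕ) : ℤ) ≤ kd S := by
      intro S hS'
      obtain ⟨h6, h7⟩ := mem_filter.1 hS'
      refine mem_filter.2 ⟨h6, ?_⟩
      have : (0 : ℤ) ≤ V := Int.natCast_nonneg V
      push_cast
      linarith
    have g3 := (card_le_card g1).trans (card_union_le _ _)
    rw [card_sdiff_of_subset g2] at g3
    have g4 := card_le_card g2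
    have g5 : ((((SM m a X).filter fun S => 2 * ((0 : ℕ) : ℤ) ≤ kd S).card - U.card : ℕ) : ℝ) =
        (((SM m a X).filter fun S => 2 * ((0 : ℕ) : ℤ) ≤ kd S).card : ℝ) - (U.card : ℝ) :=
      Nat.cast_sub g4
    rw [← g5]
    exact_mod_cast g3
  have hgood2 : ((U.filter (Gd A b)).card : ℝ) ≤ (((SM m a X).filter (Gd A b)).card : ℝ) := by
    exact_mod_cast card_le_card (filter_subset_filter _ (filter_subset _ _))
  rw [abs_le] at hk0 hkV htot
  have hc20 := hc2.2.1.le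
  have hc21 := hc2.2.2.1.le
  rw [Real.dist_eq]
  have e3 : (((SM m a X).filter (Gd A b)).card : ℝ) / ((SM m a X).card : ℝ) - c2 / 2 =
      ((((SM m a X).filter (Gd A b)).card : ℝ) - c2 / 2 * ((SM m a X).card : ℝ)) /
        ((SM m a X).card : ℝ) := by
    field_simp
  rw [e3, abs_div, abs_of_pos hSpos, div_lt_iff₀ hSpos]
  have g2 : c * ε / 8 * X ≤ ε / 8 * ((SM m a X).card : ℝ) := by
    calc c * ε / 8 * X = ε / 8 * (c * X) := by ring
      _ ≤ _ := mul_le_mul_of_nonneg_left hlo (by linarith)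
  have g2' : c * ε / 16 * X ≤ ε / 16 * ((SM m a X).card : ℝ) := by
    calc c * ε / 16 * X = ε / 16 * (c * X) := by ring
      _ ≤ _ := mul_le_mul_of_nonneg_left hlo (by linarith)
  have g3 : 2 * (1 / 4 : ℝ) ^ V * ((SM m a X).card : ℝ) ≤ 2 * (ε / 8) * ((SM m a X).card : ℝ) := by
    gcongr
  have g4 : 0 < ε * ((SM m a X).card : ℝ) := by positivity
  have g5 : |c2 * (U.card : ℝ) - c2 / 2 * ((SM m a X).card : ℝ)| ≤
      ε / 16 * ((SM m a X).card : ℝ) := by
    have g6 : c2 * (U.card : ℝ) - c2 / 2 * ((SM m a X).card : ℝ) =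
        c2 * ((U.card : ℝ) - 1 / 2 * ((SM m a X).card : ℝ)) := by ring
    rw [g6, abs_mul, abs_of_nonneg hc20]
    have g7 : |(U.card : ℝ) - 1 / 2 * ((SM m a X).card : ℝ)| ≤ ε / 16 * ((SM m a X).card : ℝ) := by
      rw [abs_le]
      constructor <;> linarith
    calc c2 * |(U.card : ℝ) - 1 / 2 * ((SM m a X).card : ℝ)| ≤
          1 * |(U.card : ℝ) - 1 / 2 * ((SM m a X).card : ℝ)| :=
          mul_le_mul_of_nonneg_right hc21 (abs_nonneg _)
      _ ≤ _ := by rw [one_mul]; exact g7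
  rw [abs_le] at g5
  rw [abs_lt]
  constructor <;> linarith

/-! ### The translation -/

theorem card_eq (m a X : ℕ) (h : Ma m a) (Q : Finset ℕ → Prop) :
    ((Icc 1 X).filter fun D => Squarefree D ∧ D % m = a % m ∧ Q D.primeFactors).card =
      ((SM m a X).filter Q).card := by
  have h56 : 56 ∣ m := h.dvd
  have ha4 := h.one
  have h7a : ¬ 7 ∣ a := by
    intro h7
    have h1 : 7 ∣ m := dvd_trans (by norm_num) h56
    have h2 := Nat.dvd_gcd h7 h1
    rw [h.cop] at h2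
    norm_num at h2
  have hmod : ∀ D : ℕ, D % m = a % m → D % 4 = 1 ∧ ¬ 7 ∣ D := by
    intro D hD
    have h1 : D ≡ a [MOD m] := hD
    have h2 : D ≡ a [MOD 56] := h1.of_dvd h56
    have h3 : D % 56 = a % 56 := h2
    constructor
    · omega
    · omega
  have e1 := Pool.Agent.N713.ND.NS.card_eq X (fun S => (∏ p ∈ S, p) % m = a % m ∧ Q S)
  refine Eq.trans ?_ (e1.trans ?_)
  · congr 1
    ext D
    simp only [mem_filter]
    constructor
    · rintro ⟨h1, h2, h3, h4⟩
      obtain ⟨h5, h6⟩ := hmod D h3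
      refine ⟨h1, h2, h5, h6, ?_, h4⟩
      rw [Nat.prod_primeFactors_of_squarefree h2]
      exact h3
    · rintro ⟨h1, h2, h3, h4, h5, h6⟩
      rw [Nat.prod_primeFactors_of_squarefree h2] at h5
      exact ⟨h1, h2, h5, h6⟩
  · congr 1
    ext S
    unfold SM
    simp only [mem_filter]
    tauto

theorem t_NS : M_DQ → M_DEN := by
  intro hdq m a hma A b C hr hb
  refine (hdq m a hma A b C hr hb).congr fun X => ?_
  have e1 := card_eq m a X hma (Gd A b)
  have e2 := card_eq m a X hma (fun _ => True)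
  rw [Finset.filter_true] at e2
  simp only [and_true] at e2
  rw [← e1, ← e2]

end Pool.Agent.N226.DM.Asy
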