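import Pool.Agent.N843.DM.Stm
import Pool.Agent.N226.ND.KEY

/-! DM-KEY: the sum over the boxes cut by the residues modulo `m`. -/

set_option autoImplicit false

open scoped Classical

namespace Pool.Agent.N226.DM.KEY

open Finset
open Pool.Agent.Y703.CX (sm la jj XX)
open Pool.Agent.N973.ND
open Pool.Agent.Y703.CQ (nr sg c2)
open Pool.Agent.N226.ND.KEY
open Pool.Agent.N843.DM

/-- the class of a large prime -/
noncomputable def pm (m H p : ℕ) : (ℕ × ℕ) × ℕ := (ph H p, p % m)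

/-- the key of a set -/
noncomputable def km (m z H : ℕ) (S : Finset ℕ) : Finset ℕ × Finset ((ℕ × ℕ) × ℕ) :=
  (sm z S, (la z S).image (pm m H))

/-- the keys which occur -/
structure KQ (m a X z H k V : ℕ) (S₀ : Finset ℕ) (J : Finset ((ℕ × ℕ) × ℕ)) : Prop where
  kp : KP X z H k V S₀ (J.image Prod.fst)
  inj : Set.InjOn (fun e : (ℕ × ℕ) × ℕ => e.1.1) (J : Set ((ℕ × ℕ) × ℕ))
  res : ((∏ p ∈ S₀, p) * ∏ e ∈ J, e.2) % m = a % m

theorem im_fst (m z H : ℕ) (S : Finset ℕ) :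
    ((la z S).image (pm m H)).image Prod.fst = (la z S).image (ph H) := by
  rw [Finset.image_image]
  rfl

theorem inj_iff {m z H : ℕ} {S : Finset ℕ} (hi : Set.InjOn (pm m H) (la z S : Set ℕ)) :
    Set.InjOn (jj H) (la z S : Set ℕ) ↔ Set.InjOn (fun e : (ℕ × ℕ) × ℕ => e.1.1)
      (((la z S).image (pm m H) : Finset _) : Set ((ℕ × ℕ) × ℕ)) := by
  constructor
  · intro h a ha b hb hab
    rw [Finset.mem_coe, Finset.mem_image] at ha hb
    obtain ⟨p, hp, rfl⟩ := ha
    obtain ⟨q, hq, rfl⟩ := hb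
    rw [h (Finset.mem_coe.2 hp) (Finset.mem_coe.2 hq) hab]
  · intro h p hp q hq hpq
    exact hi hp hq (h (Finset.mem_coe.2 (Finset.mem_image_of_mem _ (Finset.mem_coe.1 hp)))
      (Finset.mem_coe.2 (Finset.mem_image_of_mem _ (Finset.mem_coe.1 hq))) hpq)

theorem res_iff {m z H : ℕ} {S : Finset ℕ} (hi : Set.InjOn (pm m H) (la z S : Set ℕ)) :
    ((∏ p ∈ sm z S, p) * ∏ e ∈ (la z S).image (pm m H), e.2) % m = (∏ p ∈ S, p) % m := by
  rw [Finset.prod_image hi, ← sm_la_prod z S, Nat.mul_mod, Nat.mul_mod (∏ p ∈ sm z S, p)]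
  congr 2
  have h : ∏ p ∈ la z S, (pm m H p).2 = ∏ p ∈ la z S, p % m := rfl
  rw [h]
  exact (Finset.prod_nat_mod _ _ _).symm

theorem rm_iff {m a X z H k V : ℕ} (hH : 1 ≤ H) {S : Finset ℕ}
    (hS : ∀ q ∈ S, Pr q)
    (hi : Set.InjOn (pm m H) (la z S : Set ℕ)) :
    S ∈ RM m a X z H k V ↔ KQ m a X z H k V (km m z H S).1 (km m z H S).2 := by
  have h0 : (km m z H S).1 = sm z S := rfl
  have h1 : (km m z H S).2 = (la z S).image (pm m H) := rfl
  rw [h0, h1]
  unfold RM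
  rw [Finset.mem_filter]
  constructor
  · rintro ⟨h2, h3⟩
    obtain ⟨f1, f2, f3⟩ := rr_facts h2
    refine ⟨?_, (inj_iff hi).1 f2, ?_⟩
    · rw [im_fst]
      exact (rr_iff hH hS (inj_ph f2)).1 h2
    · rw [res_iff hi]
      exact h3
  · rintro ⟨k1, k2, k3⟩
    have f2 := (inj_iff hi).2 k2
    refine ⟨(rr_iff hH hS (inj_ph f2)).2 ?_, ?_⟩
    · have h4 := k1
      rw [im_fst] at h4
      exact h4
    · rw [res_iff hi] at k3
      exact k3

/-- the primes of a block -/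
noncomputable def CM (m z H : ℕ) (e : (ℕ × ℕ) × ℕ) : Finset ℕ :=
  (CC z H e.1).filter fun p => p % m = e.2

theorem mem_CM {m z H : ℕ} (hH : 1 ≤ H) {e : (ℕ × ℕ) × ℕ} {p : ℕ} :
    p ∈ CM m z H e ↔ Pr p ∧ z < p ∧ pm m H p = e := by
  unfold CM
  rw [Finset.mem_filter, mem_CC hH]
  constructor
  · rintro ⟨⟨h1, h2, h3⟩, h4⟩
    exact ⟨h1, h2, Prod.ext h3 h4⟩
  · rintro ⟨h1, h2, h3⟩
    exact ⟨⟨h1, h2, congrArg Prod.fst h3⟩, congrArg Prod.snd h3⟩

section fill
variable {m z H : ℕ} {S₀ : Finset ℕ} {J : Finset ((ℕ × ℕ) × ℕ)} {p : J → ℕ}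

theorem sm_fill' (hH : 1 ≤ H) (h₀ : ∀ q ∈ S₀, q ≤ z) (hp : ∀ i : J, p i ∈ CM m z H i) :
    sm z (S₀ ∪ univ.image p) = S₀ := by
  ext q
  unfold sm
  rw [Finset.mem_filter, Finset.mem_union, Finset.mem_image]
  constructor
  · rintro ⟨h | ⟨i, -, rfl⟩, h2⟩
    · exact h
    · have := ((mem_CM hH).1 (hp i)).2.1
      omega
  · exact fun h => ⟨Or.inl h, h₀ q h⟩

theorem la_fill' (hH : 1 ≤ H) (h₀ : ∀ q ∈ S₀, q ≤ z) (hp : ∀ i : J, p i ∈ CM m z H i) :
    la z (S₀ ∪ univ.image p) = univ.image p := by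
  ext q
  unfold la
  rw [Finset.mem_filter, Finset.mem_union, Finset.mem_image]
  constructor
  · rintro ⟨h | h, h2⟩
    · exact absurd (h₀ q h) h2
    · exact h
  · rintro ⟨i, -, rfl⟩
    have := ((mem_CM hH).1 (hp i)).2.1
    exact ⟨Or.inr ⟨i, Finset.mem_univ _, rfl⟩, by omega⟩

theorem pm_fill (hH : 1 ≤ H) (hp : ∀ i : J, p i ∈ CM m z H i) (i : J) : pm m H (p i) = i :=
  ((mem_CM hH).1 (hp i)).2.2

theorem im_fill' (hH : 1 ≤ H) (hp : ∀ i : J, p i ∈ CM m z H i) :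
    (univ.image p).image (pm m H) = J := by
  ext k
  rw [Finset.mem_image]
  constructor
  · rintro ⟨q, hq, rfl⟩
    rw [Finset.mem_image] at hq
    obtain ⟨i, -, rfl⟩ := hq
    rw [pm_fill hH hp]
    exact i.2
  · intro hk
    exact ⟨p ⟨k, hk⟩, Finset.mem_image_of_mem _ (Finset.mem_univ _), pm_fill hH hp ⟨k, hk⟩⟩

theorem km_fill (hH : 1 ≤ H) (h₀ : ∀ q ∈ S₀, q ≤ z) (hp : ∀ i : J, p i ∈ CM m z H i) :
    km m z H (S₀ ∪ univ.image p) = (S₀, J) := by
  unfold km
  rw [sm_fill' hH h₀ hp, la_fill' hH h₀ hp, im_fill' hH hp]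

theorem inj_fill' (hH : 1 ≤ H) (h₀ : ∀ q ∈ S₀, q ≤ z) (hp : ∀ i : J, p i ∈ CM m z H i) :
    Set.InjOn (pm m H) (la z (S₀ ∪ univ.image p) : Set ℕ) := by
  rw [la_fill' hH h₀ hp]
  intro a ha b hb hab
  rw [Finset.mem_coe, Finset.mem_image] at ha hb
  obtain ⟨i, -, rfl⟩ := ha
  obtain ⟨j, -, rfl⟩ := hb
  rw [pm_fill hH hp, pm_fill hH hp] at hab
  rw [Subtype.ext hab]

end fill

theorem inj_pm {m H : ℕ} {A : Set ℕ} (h : Set.InjOn (jj H) A) : Set.InjOn (pm m H) A :=
  fun _ ha _ hb hab => h ha hb (congrArg (fun e : (ℕ × ℕ) × ℕ => e.1.1) hab)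

theorem rm_rr {m a X z H k V : ℕ} {S : Finset ℕ} (hS : S ∈ RM m a X z H k V) :
    S ∈ RR X z H k V := (Finset.mem_filter.1 hS).1

theorem key_bij' {m a X z H k V : ℕ} (hH : 1 ≤ H) {S₀ : Finset ℕ}
    {J : Finset ((ℕ × ℕ) × ℕ)}
    (hkey : KQ m a X z H k V S₀ J) (P : Finset ℕ → Prop) [DecidablePred P] [DecidableEq J] :
    ((Fintype.piFinset fun i : J => CM m z H i).filter fun p => P (S₀ ∪ univ.image p)).card =
      ((RM m a X z H k V).filter fun S => km m z H S = (S₀, J) ∧ P S).card := by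
  have h₀ := hkey.kp.le
  apply Finset.card_bij (fun (p : J → ℕ) _ => S₀ ∪ univ.image p)
  · intro p hp
    rw [Finset.mem_filter, Fintype.mem_piFinset] at hp
    obtain ⟨hp, hP⟩ := hp
    have hk := km_fill hH h₀ hp
    rw [Finset.mem_filter]
    refine ⟨?_, hk, hP⟩
    rw [rm_iff hH _ (inj_fill' hH h₀ hp), hk]
    · exact hkey
    · intro q hq
      rw [Finset.mem_union, Finset.mem_image] at hq
      rcases hq with hq | ⟨i, -, rfl⟩
      · exact hkey.kp.cl q hq
      · exact ((mem_CM hH).1 (hp i)).1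
  · intro p hp p' hp' h
    rw [Finset.mem_filter, Fintype.mem_piFinset] at hp hp'
    have h1 := la_fill' hH h₀ hp.1
    rw [h, la_fill' hH h₀ hp'.1] at h1
    funext i
    have h2 : p i ∈ univ.image p' := by
      rw [h1]
      exact Finset.mem_image_of_mem _ (Finset.mem_univ _)
    rw [Finset.mem_image] at h2
    obtain ⟨j, -, hj⟩ := h2
    have h3 := pm_fill hH hp.1 i
    have h4 := pm_fill hH hp'.1 j
    rw [hj, h3] at h4
    rw [← hj, Subtype.ext h4]
  · intro S hS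
    rw [Finset.mem_filter] at hS
    obtain ⟨hSR, hSk, hSP⟩ := hS
    obtain ⟨hSO, hSI, -⟩ := rr_facts (rm_rr hSR)
    have hk1 : sm z S = S₀ := congrArg Prod.fst hSk
    have hk2 : (la z S).image (pm m H) = J := congrArg Prod.snd hSk
    have hex : ∀ i : J, ∃ q ∈ la z S, pm m H q = i := by
      rintro ⟨i, hi⟩
      rw [← hk2, Finset.mem_image] at hi
      exact hi
    choose p hp1 hp2 using hex
    have him : univ.image p = la z S := by
      ext q
      rw [Finset.mem_image]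
      constructor
      · rintro ⟨i, -, rfl⟩
        exact hp1 i
      · intro hq
        have hjq : pm m H q ∈ J := by
          rw [← hk2]
          exact Finset.mem_image_of_mem _ hq
        exact ⟨⟨pm m H q, hjq⟩, Finset.mem_univ _, inj_pm hSI (Finset.mem_coe.2 (hp1 _))
          (Finset.mem_coe.2 hq) (hp2 ⟨pm m H q, hjq⟩)⟩
    have hSe : S₀ ∪ univ.image p = S := by
      rw [him, ← hk1]
      unfold sm la
      exact Finset.filter_union_filter_not_eq _ _
    refine ⟨p, ?_, hSe⟩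
    rw [Finset.mem_filter, Fintype.mem_piFinset, hSe]
    refine ⟨fun i => (mem_CM hH).2 ⟨hSO _ (Finset.mem_filter.1 (hp1 i)).1,
      not_le.1 (Finset.mem_filter.1 (hp1 i)).2, hp2 i⟩, hSP⟩

theorem CM_facts {m z H : ℕ} (hH : 1 ≤ H) {e : (ℕ × ℕ) × ℕ} {p : ℕ}
    (hp : p ∈ CM m z H e) :
    Pr p ∧ z < p ∧ p ≤ XX H e.1.1 ∧ ty p = e.1.2 :=
  CC_facts hH (Finset.mem_filter.1 hp).1

theorem CM_disj {m z H : ℕ} (hH : 1 ≤ H) {J : Finset ((ℕ × ℕ) × ℕ)} (i l : J)
    (hil : i ≠ l) : Disjoint (CM m z H i) (CM m z H l) := by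
  rw [Finset.disjoint_left]
  intro p hp hp'
  have h5 := ((mem_CM hH).1 hp).2.2
  have h6 := ((mem_CM hH).1 hp').2.2
  exact hil (Subtype.ext (h5.symm.trans h6))

theorem hb_box' {A : ℕ → ℕ → ZMod 2} {C₁ : ℝ} (hB : BilP A C₁)
    {m z H : ℕ} (hH : 1 ≤ H) (hz : 1 ≤ z) {κ : ℝ} (hκ : 0 ≤ κ) (hκ1 : C₁ ≤ κ ^ 24 * z)
    {J : Finset ((ℕ × ℕ) × ℕ)} (inst : DecidablePred fun e : J => e.1.1.2 = 2 ∨ e.1.1.2 = 3) :
    HB A (univ.filter fun e : J => e.1.1.2 = 2 ∨ e.1.1.2 = 3) (fun i : J => CM m z H i)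
      (fun i => XX H i.1.1.1) κ := by
  intro i l hil α β c d hαβ hβ hc hd
  show ‖∑ x ∈ CM m z H i, ∑ y ∈ CM m z H l, c x * d y * sg (α * nr x y + β * A x y)‖ ≤
    κ * ((XX H i.1.1.1 : ℝ) * (XX H l.1.1.1 : ℝ))
  have hz0 : (0 : ℝ) < z := by exact_mod_cast hz
  have hk0 : (0 : ℝ) ≤ κ * ((XX H i.1.1.1 : ℝ) * (XX H l.1.1.1 : ℝ)) := by positivity
  rcases (CM m z H i).eq_empty_or_nonempty with he | ⟨p₀, hp₀⟩
  · rw [he, Finset.sum_empty, norm_zero]
    exact hk0
  rcases (CM m z H l).eq_empty_or_nonempty with he | ⟨q₀, hq₀⟩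
  · rw [he]
    simp only [Finset.sum_empty, Finset.sum_const_zero, norm_zero]
    exact hk0
  have hzi : z ≤ XX H i.1.1.1 := by
    have := CM_facts hH hp₀
    omega
  have hzl : z ≤ XX H l.1.1.1 := by
    have := CM_facts hH hq₀
    omega
  have h3 := hB.2 (CM m z H i) (CM m z H l) (XX H i.1.1.1) (XX H l.1.1.1) z c d α β
    (fun p hp => by
      obtain ⟨h3, -, h4, h5⟩ := CM_facts hH hp
      exact ⟨h3, h4⟩)
    (fun p hp => by
      obtain ⟨h3, -, h4, h5⟩ := CM_facts hH hp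
      exact ⟨h3, h4⟩)
    (CM_disj hH i l hil) hαβ
    (fun h => by
      obtain ⟨h5, h6⟩ := hβ h
      refine ⟨fun p hp => m7_ty ?_, fun p hp => m7_ty ?_⟩
      · rw [(CM_facts hH hp).2.2.2]
        exact (Finset.mem_filter.1 h5).2
      · rw [(CM_facts hH hp).2.2.2]
        exact (Finset.mem_filter.1 h6).2)
    hz hzi hzl hc hd
  exact root24 (norm_nonneg _) hκ (Nat.cast_nonneg _) (Nat.cast_nonneg _) hz0 h3 hκ1

theorem inj_fst {J : Finset ((ℕ × ℕ) × ℕ)}
    (h : Set.InjOn (fun e : (ℕ × ℕ) × ℕ => e.1.1) (J : Set ((ℕ × ℕ) × ℕ))) :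
    Set.InjOn Prod.fst (J : Set ((ℕ × ℕ) × ℕ)) :=
  fun _ ha _ hb hab => h ha hb (congrArg Prod.fst hab)

theorem per_key' (hBOX : S_BOX) (hEQ : S_EQ) (hLA : S_LA) {A : ℕ → ℕ → ZMod 2} {b : ℕ → ZMod 2}
    (hR : RecA A) {m a X z H k V : ℕ} (hH : 1 ≤ H)
    {κ : ℝ} (hκ : 0 ≤ κ) {S₀ : Finset ℕ} {J : Finset ((ℕ × ℕ) × ℕ)} (hk : KQ m a X z H k V S₀ J)
    (hHB : HB A (univ.filter fun e : J => e.1.1.2 = 2 ∨ e.1.1.2 = 3) (fun i : J => CM m z H i)
      (fun i => XX H i.1.1.1) κ) :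
    |(((RM m a X z H k V).filter fun S => km m z H S = (S₀, J) ∧
        (Nd (sm z S) (la z S) ∧ Gd A b S)).card : ℝ) -
      c2 * (((RM m a X z H k V).filter fun S => km m z H S = (S₀, J) ∧
        Nd (sm z S) (la z S)).card : ℝ)| ≤
    2 * (1 / 4 : ℝ) ^ V *
        (((RM m a X z H k V).filter fun S => km m z H S = (S₀, J)).card : ℝ) +
      (3 ^ (9 * k ^ 2 + 9) * κ) * (X / ((∏ p ∈ S₀, p : ℕ) : ℝ)) := by
  have hif := inj_fst hk.inj
  have c1 : ∀ c : ℕ, (univ.filter fun e : J => e.1.1.2 = c).card =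
      ((J.image Prod.fst).filter fun e => e.2 = c).card := by
    intro c
    have h1 : (univ.filter fun e : J => e.1.1.2 = c).card = (J.filter fun e => e.1.2 = c).card := by
      rw [← Finset.card_map (Function.Embedding.subtype (· ∈ J))]
      congr 1
      ext x
      simp only [Finset.mem_map, Finset.mem_filter, Finset.mem_univ, true_and,
        Function.Embedding.coe_subtype]
      constructor
      · rintro ⟨u, hu, rfl⟩
        exact ⟨u.2, hu⟩
      · rintro ⟨h, h'⟩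
        exact ⟨⟨x, h⟩, h', rfl⟩
    rw [h1, Finset.filter_image, Finset.card_image_of_injOn]
    intro a ha b hb hab
    exact hif (Finset.mem_coe.2 (Finset.mem_filter.1 (Finset.mem_coe.1 ha)).1)
      (Finset.mem_coe.2 (Finset.mem_filter.1 (Finset.mem_coe.1 hb)).1) hab
  obtain ⟨n, hn⟩ : ∃ n : ℕ, kj S₀ (J.image Prod.fst) = 2 * n := by
    obtain ⟨r, hr⟩ := hk.kp.par
    have h1 := hk.kp.few
    exact ⟨r.toNat, by omega⟩
  have hVm : V ≤ n := by
    have h1 := hk.kp.few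
    omega
  have hinj : Function.Injective (fun i : J => i.1.1.1) := by
    intro a b hab
    exact Subtype.ext (hk.inj (Finset.mem_coe.2 a.2) (Finset.mem_coe.2 b.2) hab)
  let lo : LinearOrder J := LinearOrder.lift' (fun i : J => i.1.1.1) hinj
  have hbox := box_dec hBOX hEQ hLA A b J lo (fun e => e.1.1.2) (fun i => CM m z H i)
    (fun i => XX H i.1.1.1) κ S₀ n hR hκ
    (fun i => by
      refine (Finset.card_filter_le _ _).trans ((Finset.card_filter_le _ _).trans ?_)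
      rw [Nat.card_Icc]
      omega)
    hHB (fun u hu => hk.kp.cl u hu)
    (fun i p hp => by
      obtain ⟨h3, h4, h5, h6⟩ := CM_facts hH hp
      refine ⟨h3, fun h => ?_, h6⟩
      have := hk.kp.le p h
      omega)
    (fun i l hil => CM_disj hH i l hil)
    (by
      obtain ⟨e, he, h1⟩ := hk.kp.ine
      rw [Finset.mem_image] at he
      obtain ⟨e', he', rfl⟩ := he
      exact ⟨⟨e', he'⟩, h1⟩)
    (by
      rw [c1, c1]
      exact hn)
  have e1 : ((Fintype.piFinset fun i : J => CM m z H i).filter fun p => Nd S₀ (univ.image p) ∧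
      Gd A b (S₀ ∪ univ.image p)).card = ((RM m a X z H k V).filter fun S => km m z H S = (S₀, J) ∧
        (Nd (sm z S) (la z S) ∧ Gd A b S)).card := by
    rw [← key_bij' hH hk (fun S => Nd (sm z S) (la z S) ∧ Gd A b S)]
    congr 1
    refine Finset.filter_congr fun p hp => ?_
    rw [Fintype.mem_piFinset] at hp
    rw [sm_fill' hH hk.kp.le hp, la_fill' hH hk.kp.le hp]
  have e2 : ((Fintype.piFinset fun i : J => CM m z H i).filter fun p =>
      Nd S₀ (univ.image p)).card = ((RM m a X z H k V).filter fun S => km m z H S = (S₀, J) ∧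
        Nd (sm z S) (la z S)).card := by
    rw [← key_bij' hH hk (fun S => Nd (sm z S) (la z S))]
    congr 1
    refine Finset.filter_congr fun p hp => ?_
    rw [Fintype.mem_piFinset] at hp
    rw [sm_fill' hH hk.kp.le hp, la_fill' hH hk.kp.le hp]
  rw [e1, e2] at hbox
  refine hbox.trans (add_le_add ?_ ?_)
  · have h3 : (1 / 4 : ℝ) ^ n ≤ (1 / 4) ^ V :=
      pow_le_pow_of_le_one (by norm_num) (by norm_num) hVm
    have h4 : (((RM m a X z H k V).filter fun S => km m z H S = (S₀, J) ∧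
        Nd (sm z S) (la z S)).card : ℝ) ≤
        (((RM m a X z H k V).filter fun S => km m z H S = (S₀, J)).card : ℝ) := by
      have : (RM m a X z H k V).filter (fun S => km m z H S = (S₀, J) ∧ Nd (sm z S) (la z S)) ⊆
          (RM m a X z H k V).filter fun S => km m z H S = (S₀, J) := by
        intro S hS
        rw [Finset.mem_filter] at hS ⊢
        exact ⟨hS.1, hS.2.1⟩
      exact_mod_cast Finset.card_le_card this
    gcongr
  · have hcJ : Fintype.card J = J.card := Fintype.card_coe J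
    have hcard := hk.kp.card
    rw [Finset.card_image_of_injOn hif] at hcard
    have hJK : J.card ≤ k := by omega
    have hSK : S₀.card ≤ k := by omega
    obtain ⟨n, hn⟩ : ∃ n : ℕ, n =
        (@sl J _ lo (univ.filter fun i : J => i.1.1.2 = 2 ∨ i.1.1.2 = 3)).card :=
      ⟨_, rfl⟩
    have hpr : n ≤ 2 * (k * k) := by
      rw [hn]
      refine (@sl_card J _ lo _).trans ?_
      rw [hcJ]
      exact Nat.mul_le_mul_left 2 (Nat.mul_le_mul hJK hJK)
    rw [← hn]
    have h5 : (2 : ℝ) ^ ((4 * S₀.card + 1) * Fintype.card J + n) ≤ 3 ^ (9 * k ^ 2 + 9) := by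
      have hexp : (4 * S₀.card + 1) * Fintype.card J + n ≤ 9 * k ^ 2 + 9 := by
        rw [hcJ]
        have h6 : S₀.card * J.card ≤ k * k := Nat.mul_le_mul hSK hJK
        have h7 : k ≤ k * k := Nat.le_mul_self k
        have h8 : (4 * S₀.card + 1) * J.card + n = 4 * (S₀.card * J.card) + J.card + n := by ring
        have h9 : k ^ 2 = k * k := by ring
        rw [h8, h9]
        omega
      calc (2 : ℝ) ^ ((4 * S₀.card + 1) * Fintype.card J + n) ≤ 2 ^ (9 * k ^ 2 + 9) :=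
            pow_le_pow_right₀ (by norm_num) hexp
        _ ≤ 3 ^ (9 * k ^ 2 + 9) := by
            apply pow_le_pow_left₀ <;> norm_num
    have hN0 : (0 : ℝ) < ((∏ p ∈ S₀, p : ℕ) : ℝ) := by
      exact_mod_cast Finset.prod_pos fun p hp => (cl_prime (hk.kp.cl p hp)).pos
    have hprod : ∏ j : J, (XX H j.1.1.1 : ℝ) ≤ X / ((∏ p ∈ S₀, p : ℕ) : ℝ) := by
      have h5 : ∏ j : J, (XX H j.1.1.1 : ℝ) = ((∏ k ∈ J.image Prod.fst, XX H k.1 : ℕ) : ℝ) := by
        rw [Finset.prod_image hif, ← Finset.prod_coe_sort J (fun k => XX H k.1.1)]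
        push_cast
        rfl
      rw [h5, le_div_iff₀ hN0, mul_comm]
      exact_mod_cast hk.kp.prod
    calc (2 : ℝ) ^ ((4 * S₀.card + 1) * Fintype.card J + n) *
        (κ * ∏ j : J, (XX H j.1.1.1 : ℝ)) ≤
        3 ^ (9 * k ^ 2 + 9) * (κ * (X / ((∏ p ∈ S₀, p : ℕ) : ℝ))) := by gcongr
      _ = _ := by ring

/-- **DM-KEY.** -/
theorem t_KEY : M_KEY := by
  intro hEQ hLA hBOX m a hm A b C hR hB X z H k V N κ hX hH hz hκ hκz hN
  set T := (RM m a X z H k V).image (km m z H) with hT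
  set B : ℝ := 3 ^ (9 * k ^ 2 + 9) * κ with hBd
  have hB0 : 0 ≤ B := by positivity
  have hfib : ∀ (P : Finset ℕ → Prop) [DecidablePred P],
      (((RM m a X z H k V).filter fun S => P S).card : ℝ) =
      ∑ e ∈ T, (((RM m a X z H k V).filter fun S => km m z H S = e ∧ P S).card : ℝ) := by
    intro P _
    rw [Finset.card_eq_sum_card_fiberwise (f := km m z H) (t := T) (by
      intro S hS
      rw [Finset.mem_coe, Finset.mem_filter] at hS
      exact Finset.mem_coe.2 (Finset.mem_image_of_mem _ hS.1))]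
    push_cast
    refine Finset.sum_congr rfl fun e _ => ?_
    congr 2
    ext S
    simp only [Finset.mem_filter]
    tauto
  have hKP : ∀ e ∈ T, KQ m a X z H k V e.1 e.2 := by
    intro e he
    rw [hT, Finset.mem_image] at he
    obtain ⟨S, hS, rfl⟩ := he
    obtain ⟨f1, f2, f3⟩ := rr_facts (rm_rr hS)
    exact (rm_iff hH f1 (inj_pm f2)).1 hS
  have hf1 := hfib fun S => Nd (sm z S) (la z S) ∧ Gd A b S
  have hf2 := hfib fun S => Nd (sm z S) (la z S)
  have hf3 := hfib fun _ => True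
  simp only [and_true, Finset.filter_true] at hf3
  rw [hf1, hf2, hf3, Finset.mul_sum, ← Finset.sum_sub_distrib]
  refine (Finset.abs_sum_le_sum_abs _ _).trans ?_
  have h3 : ∀ e ∈ T, |(((RM m a X z H k V).filter fun S => km m z H S = e ∧
        (Nd (sm z S) (la z S) ∧ Gd A b S)).card : ℝ) -
      c2 * (((RM m a X z H k V).filter fun S => km m z H S = e ∧
        Nd (sm z S) (la z S)).card : ℝ)| ≤
      2 * (1 / 4 : ℝ) ^ V * (((RM m a X z H k V).filter fun S => km m z H S = e).card : ℝ) +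
      B * (X / ((∏ p ∈ e.1, p : ℕ) : ℝ)) := by
    intro e he
    obtain ⟨S₀, J⟩ := e
    have hk' := hKP _ he
    exact per_key' hBOX hEQ hLA hR hH hκ hk' (hb_box' hB hH hz hκ hκz _)
  refine (Finset.sum_le_sum h3).trans ?_
  rw [Finset.sum_add_distrib, ← Finset.mul_sum]
  refine add_le_add le_rfl ?_
  have hsub : T ⊆ (TP X) ×ˢ (((range N ×ˢ range 4) ×ˢ range m).powerset.filter
      fun J => J.card ≤ k) := by
    intro e he
    have hk' := hKP e he
    rw [hT, Finset.mem_image] at he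
    obtain ⟨S, hS, rfl⟩ := he
    obtain ⟨f1, f2, f3⟩ := rr_facts (rm_rr hS)
    rw [Finset.mem_product, Finset.mem_filter, Finset.mem_powerset]
    refine ⟨mem_TP (fun q hq => cl_prime (hk'.kp.cl q hq)) ?_, ?_, ?_⟩
    · refine le_trans ?_ f3
      exact Nat.le_of_dvd (Finset.prod_pos fun p hp => (cl_prime (f1 p hp)).pos)
        (Finset.prod_dvd_prod_of_subset _ _ _ (Finset.filter_subset _ _))
    · intro e he
      unfold km at he
      rw [Finset.mem_image] at he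
      obtain ⟨q, hq, rfl⟩ := he
      have hqS := (Finset.mem_filter.1 hq).1
      have hq0 := (cl_prime (f1 q hqS)).pos
      have hqX : q ≤ X := by
        refine le_trans ?_ f3
        exact Nat.le_of_dvd (Finset.prod_pos fun p hp => (cl_prime (f1 p hp)).pos)
          (Finset.dvd_prod_of_mem _ hqS)
      unfold pm ph
      rw [Finset.mem_product, Finset.mem_product, Finset.mem_range, Finset.mem_range,
        Finset.mem_range]
      refine ⟨⟨?_, ty_lt _⟩, Nat.mod_lt _ hm.pos⟩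
      have h3 : ((jj H q : ℕ) : ℝ) < N := by
        refine lt_of_le_of_lt (Nat.floor_le (mul_nonneg (Nat.cast_nonneg _)
          (Real.log_nonneg (by exact_mod_cast hq0)))) ?_
        refine lt_of_le_of_lt ?_ hN
        refine mul_le_mul_of_nonneg_left ?_ (Nat.cast_nonneg _)
        exact Real.log_le_log (by exact_mod_cast hq0) (by exact_mod_cast hqX)
      exact_mod_cast h3
    · have := hk'.kp.card
      rw [Finset.card_image_of_injOn (inj_fst hk'.inj)] at this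
      omega
  refine (Finset.sum_le_sum_of_subset_of_nonneg hsub fun _ _ _ => by positivity).trans ?_
  rw [Finset.sum_product]
  simp only [Finset.sum_const, nsmul_eq_mul]
  rw [← Finset.mul_sum]
  have hm1 : (1 : ℝ) ≤ m := by exact_mod_cast hm.pos
  have h4 : (((((range N ×ˢ range 4) ×ˢ range m).powerset.filter
      fun J => J.card ≤ k).card : ℕ) : ℝ) ≤ (m : ℝ) ^ (2 * k + 2) * (9 * N + 9 : ℝ) ^ k := by
    have h5 := card_sub ((range N ×ˢ range 4) ×ˢ range m) k
    rw [Finset.card_product, Finset.card_product, Finset.card_range, Finset.card_range,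
      Finset.card_range] at h5
    have hN0 : (0 : ℝ) ≤ N := Nat.cast_nonneg _
    calc (((((range N ×ˢ range 4) ×ˢ range m).powerset.filter
      fun J => J.card ≤ k).card : ℕ) : ℝ) ≤
          (((N * 4 * m + 1) ^ k : ℕ) : ℝ) := by exact_mod_cast h5
      _ = (N * 4 * m + 1 : ℝ) ^ k := by push_cast; ring
      _ ≤ (m * (9 * N + 9) : ℝ) ^ k := by
        apply pow_le_pow_left₀ (by positivity)
        nlinarith
      _ = (m : ℝ) ^ k * (9 * N + 9 : ℝ) ^ k := mul_pow _ _ _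
      _ ≤ _ := by
        refine mul_le_mul_of_nonneg_right ?_ (by positivity)
        exact pow_le_pow_right₀ hm1 (by omega)
  have h5 : ∑ S ∈ TP X, B * (X / ((∏ p ∈ S, p : ℕ) : ℝ)) ≤ B * (X * (1 + Real.log X)) := by
    have h6 : ∀ S ∈ TP X, B * ((X : ℝ) / ((∏ p ∈ S, p : ℕ) : ℝ)) =
        B * X * (1 / ((∏ p ∈ S, p : ℕ) : ℝ)) := by
      intro S _
      ring
    rw [Finset.sum_congr rfl h6, ← Finset.mul_sum]
    have h7 := mul_le_mul_of_nonneg_left (harm_TP X) (mul_nonneg hB0 (Nat.cast_nonneg X))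
    refine h7.trans (le_of_eq ?_)
    ring
  have h6 : 0 ≤ ∑ S ∈ TP X, B * ((X : ℝ) / ((∏ p ∈ S, p : ℕ) : ℝ)) :=
    Finset.sum_nonneg fun _ _ => by positivity
  have h7 : (m : ℝ) ^ (2 * k + 2) * ((9 * N + 9 : ℝ) ^ k * B * (X * (1 + Real.log X))) =
      ((m : ℝ) ^ (2 * k + 2) * (9 * N + 9 : ℝ) ^ k) * (B * (X * (1 + Real.log X))) := by ring
  rw [h7]
  exact mul_le_mul h4 h5 h6 (by positivity)

end Pool.Agent.N226.DM.KEY
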